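import Pool.Agent.W263.BSD.Final

/-!
# The analytic rank lies between the growth exponents of the Birch and Swinnerton-Dyer products

Let `C : y² = x³ + a x + b` be an elliptic curve over `ℚ`, `a, b ∈ ℤ`. Birch and Swinnerton-Dyer
observed that the products `P(x) = ∏_{p ≤ x, p ∤ 2Δ} (N_p + 1) / p` seem to grow like a constant
times `(log x)^r`, `r` the rank of `C(ℚ)`; here `N_p + 1` is the number of points of `C` over
`ℤ/p`, with the point at infinity. The rank form of the conjecture replaces the growth exponent by
the order of vanishing of `L(C, s)` at `s = 1`. It is proved here, unconditionally, that the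
order of vanishing never exceeds the upper growth exponent, of `P` itself and of all its logarithmic
Riesz means: for every `k` and for arbitrarily large `x`,
`R_k(x) = ∑_{p ≤ x, p ∤ 2Δ} (1 - log p / log x)^k log ((N_p + 1)/p) > ord_{s=1} L(C, s) · log log x - M`.
For `k = 0` this says `P(x) ≥ c (log x)^{ord L(C, s)}`, `c > 0`, for arbitrarily large `x`. So the upper
bound `P(x) ≤ K (log x)^{r + 1 - δ}` alone (a weak form of half of the original conjecture) would give
`ord_{s=1} L(C, s) ≤ r`. If `L(C, s)` has no real zero `s > 1`, the order is also at least the lower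
growth exponent, for all `k`: `R_k(x) < ord_{s=1} L(C, s) · log log x + M` for arbitrarily large `x`.

No hypothesis on the zeros of `L(C, s)` (Riemann hypothesis) is used in the first part.
The proof uses Hasse's bound, Landau's lemma on Laplace transforms of positive functions and the fact
that a real zero `s > 1` of `L(C, s)` would make `R_k` large, not small.
-/

set_option autoImplicit false

namespace Pool.Agent.W263.Old.GrowthExponents

open Pool.Agent.W263.BSD Filter

/-- **The analytic rank lies between the growth exponents of the products `P`.** Let `F` be the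
(entire continuation of the) incomplete L-series of `y² = x³ + a x + b`. Its order of vanishing at
`s = 1` is a natural number `r`, and for every `k` there are a constant `M` and arbitrarily large `x`
with `R_k(x) > r log log x - M`; if `F` has no real zeros to the right of `1`, there are also `M`
and arbitrarily large `x` with `R_k(x) < r log log x + M`. -/
theorem result (a b : ℤ) (_hΔ : 4 * a ^ 3 + 27 * b ^ 2 ≠ 0) (F : ℂ → ℂ) (hF : IsLSeries a b F) :
    ∃ r : ℕ, analyticOrderAt F 1 = r ∧ ∀ k : ℕ,
      (∃ M : ℝ, ∃ᶠ x : ℝ in atTop, r * Real.log (Real.log x) - M < rieszMean a b k x) ∧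
      ((∀ s : ℝ, 1 < s → F s ≠ 0) →
        ∃ M : ℝ, ∃ᶠ x : ℝ in atTop, rieszMean a b k x < r * Real.log (Real.log x) + M) := by
  obtain ⟨r, hr⟩ := order_finite hF
  exact ⟨r, hr, fun k => ⟨upper hF hr k, fun hne => lower hF hr hne k⟩⟩

end Pool.Agent.W263.Old.GrowthExponents
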