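import Pool.Agent.W263.BSD.Final

/-!
# One-sided growth of the Birch and Swinnerton-Dyer products determines the analytic rank

Let `C : y² = x³ + a x + b` be an elliptic curve over `ℚ`, `a, b ∈ ℤ`, and let
`P(x) = ∏_{p ≤ x, p ∤ 2Δ} (N_p + 1) / p` be the products of Birch and Swinnerton-Dyer, with the Riesz
means `R_k(x) = ∑_{p ≤ x, p ∤ 2Δ} (1 - log p / log x)^k log ((N_p + 1)/p)` of their logarithms, so that
`R_0(x) = log P(x)` and `R_1(x) = (log x)⁻¹ ∫_1^x log P(t) dt/t`.

Goldfeld (1982) proved that an asymptotic formula `P(x) ~ A (log x)^ρ` implies that `ρ` is the order of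
vanishing of `L(C, s)` at `s = 1` and that `L(C, s)` has no zeros with `Re s > 1`. Here it is shown
that an UPPER bound is enough: for every `k`, either `R_k(x) > K log log x` for arbitrarily large `x`,
for every `K`, or `L(C, s)` has no zeros with `Re s > 1` and `R_{k+1}(x) / log log x` converges to
`ord_{s=1} L(C, s)`. For example (`k = 0`), if `P(x) ≤ (log x)^K` for some `K` and all large `x`, then
`∫_1^x log P(t) dt/t ~ ord_{s=1} L(C, s) · log x · log log x`. In the second case the equality of the rank
and the order of vanishing for `C` is equivalent to the statement that the mean growth exponent of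
the products is the rank. (By the classical explicit formula the second case holds for every `k ≥ 1`
if `L(C, s)` has no zeros with `Re s > 1`.)

The proof uses Hasse's bound, Landau's lemma for Laplace transforms and a Tauberian
theorem of Karamata's type; everything is proved in the imported files.
-/

set_option autoImplicit false

namespace Pool.Agent.W263.Old.OneSidedGrowth

open Pool.Agent.W263.BSD Filter Topology

/-- **Dichotomy.** For every curve `y² = x³ + a x + b` and every `k`, either the Riesz mean `R_k(x)` of
`log P` is not `≤ K log log x` for large `x`, for any `K`, or `L(C, s)` has no zeros with `Re s > 1`,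
`R_{k+1}(x) / log log x` tends to the order of vanishing at `s = 1`, and the rank form of the Birch and
Swinnerton-Dyer conjecture for the curve is equivalent to `R_{k+1}(x) / log log x → rank`. -/
theorem result (a b : ℤ) (_hΔ : 4 * a ^ 3 + 27 * b ^ 2 ≠ 0) (F : ℂ → ℂ) (hF : IsLSeries a b F)
    (k : ℕ) :
    (∀ K : ℝ, ∃ᶠ x : ℝ in atTop, K * Real.log (Real.log x) < rieszMean a b k x) ∨
    ((∀ s : ℂ, 1 < s.re → F s ≠ 0) ∧
      (∃ r : ℕ, analyticOrderAt F 1 = r ∧
        Tendsto (fun x : ℝ => rieszMean a b (k + 1) x / Real.log (Real.log x)) atTop (𝓝 r)) ∧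
      (analyticOrderAt F 1 =
          ((Module.finrank ℤ
            (WeierstrassCurve.Affine.Point
              (WeierstrassCurve.toAffine
                ({ a₁ := 0, a₂ := 0, a₃ := 0, a₄ := (a : ℚ), a₆ := (b : ℚ) } :
                  WeierstrassCurve ℚ))) : ℕ) : ℕ∞) ↔
        Tendsto (fun x : ℝ => rieszMean a b (k + 1) x / Real.log (Real.log x)) atTop
          (𝓝 (Module.finrank ℤ
            (WeierstrassCurve.Affine.Point
              (WeierstrassCurve.toAffine
                ({ a₁ := 0, a₂ := 0, a₃ := 0, a₄ := (a : ℚ), a₆ := (b : ℚ) } :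
                  WeierstrassCurve ℚ))) : ℝ)))) := by
  by_cases h : ∃ K : ℝ, ∀ᶠ x : ℝ in atTop, rieszMean a b k x ≤ K * Real.log (Real.log x)
  · right
    obtain ⟨K, hK⟩ := h
    obtain ⟨r, hr⟩ := order_finite hF
    have h1 := mean hF hr k hK
    refine ⟨fun s hs => no_zeros_of_loglog hF k hK hs, ⟨r, hr, h1⟩, ?_⟩
    generalize Module.finrank ℤ
            (WeierstrassCurve.Affine.Point
              (WeierstrassCurve.toAffine
                ({ a₁ := 0, a₂ := 0, a₃ := 0, a₄ := (a : ℚ), a₆ := (b : ℚ) } :
                  WeierstrassCurve ℚ))) = m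
    rw [hr]
    constructor
    · intro h2
      have h3 : r = m := by exact_mod_cast h2
      rw [← h3]
      exact h1
    · intro h2
      have h3 : (r : ℝ) = m := tendsto_nhds_unique h1 h2
      have h4 : r = m := by exact_mod_cast h3
      rw [h4]
  · left
    push Not at h
    exact h

end Pool.Agent.W263.Old.OneSidedGrowth
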